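import Mathlib
import Pool.Agent.Lib_MP_c281c2_an.Main

/-!
# MP_c281c2_an: the compatibility parameter of the sandwiched quasi-relative entropy

For `α ≥ 2` the function `-Psi α` is `(ℝ₊, (2 α - 1) / 3)`-compatible with the cone of pairs of positive semidefinite
matrices. The proof (`Pool/Agent/Lib_MP_c281c2_an`) represents the second derivative along a line as a positive
combination of explicit functions; the positivity comes from the subharmonicity of sums over the eigenvalues of a
holomorphic family of matrices.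
-/

namespace Pool.Agent.Results.MP_c281c2_an.Compatibility

open Matrix
open scoped ComplexOrder

/-- The sandwiched quasi-relative entropy `tr ((Y ^ ((1 - α) / (2 α)) X Y ^ ((1 - α) / (2 α))) ^ α)`. -/
noncomputable def Psi {n : ℕ} (α : ℝ) (X Y : Matrix (Fin n) (Fin n) ℂ) : ℝ :=
  (cfc (fun x : ℝ => x ^ α) (cfc (fun x : ℝ => x ^ ((1 - α) / (2 * α))) Y * X *
    cfc (fun x : ℝ => x ^ ((1 - α) / (2 * α))) Y)).trace.re

/-- The third derivative of `Psi α` is bounded from below by `-(2 α - 1)` times the second derivative. -/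
theorem result (α : ℝ) (hα : 2 ≤ α) (n : ℕ) (X Y H K : Matrix (Fin n) (Fin n) ℂ)
    (hX : X.PosDef) (hY : Y.PosDef) (hXH : (X + H).PosSemidef ∧ (X - H).PosSemidef)
    (hYK : (Y + K).PosSemidef ∧ (Y - K).PosSemidef) :
    ContDiffAt ℝ 3 (fun t : ℝ => Psi α (X + t • H) (Y + t • K)) 0 ∧
      iteratedDeriv 3 (fun t : ℝ => Psi α (X + t • H) (Y + t • K)) 0 ≥
        -(2 * α - 1) * iteratedDeriv 2 (fun t : ℝ => Psi α (X + t • H) (Y + t • K)) 0 := by
  have h := SRE.main hα hX hY hXH.1 hXH.2 hYK.1 hYK.2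
  have e : (fun τ : ℝ => SRE.Psi α (X + (τ : ℂ) • H) (Y + (τ : ℂ) • K)) =
      fun t : ℝ => Psi α (X + t • H) (Y + t • K) := by
    funext t
    have e1 : ∀ M : Matrix (Fin n) (Fin n) ℂ, (t : ℂ) • M = t • M := fun M =>
      Matrix.ext fun i j => by
        rw [Matrix.smul_apply, Matrix.smul_apply, Complex.real_smul, smul_eq_mul]
    rw [e1, e1]
    rfl
  rw [e] at h
  exact ⟨h.1.of_le le_top, h.2⟩

end Pool.Agent.Results.MP_c281c2_an.Compatibility
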